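import Mathlib

/-! MP_f10132_gt: a temperate frame which is not spatial. -/

open TopologicalSpace

namespace Pool.Agent.Results.MP_f10132_gt.NonSpatial

universe u v

/-- Scott-open subsets of a complete lattice. -/
def IsScottOpen {L : Type u} [CompleteLattice L] (U : Set L) : Prop :=
  IsUpperSet U ∧ ∀ D : Set L, D.Nonempty → DirectedOn (· ≤ ·) D → sSup D ∈ U → ∃ d ∈ D, d ∈ U

/-- Filters: nonempty upper sets in which any two elements have a lower bound. -/
def IsFilter {L : Type u} [CompleteLattice L] (F : Set L) : Prop :=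
  F.Nonempty ∧ IsUpperSet F ∧ ∀ a ∈ F, ∀ b ∈ F, ∃ c ∈ F, c ≤ a ∧ c ≤ b

/-- The join of two filters. -/
def filterJoin {L : Type u} [CompleteLattice L] (F G : Set L) : Set L :=
  {w | ∃ a ∈ F, ∃ b ∈ G, w = a ⊓ b}

/-- Locally temperate frames. -/
def LocallyTemperate (L : Type u) [Order.Frame L] : Prop :=
  ∀ F G : Set L, IsFilter F → IsScottOpen F → IsFilter G → IsScottOpen G →
    IsScottOpen (filterJoin F G)

/-- Temperate frames. -/
def Temperate (L : Type u) [Order.Frame L] : Prop :=
  LocallyTemperate L ∧ IsScottOpen ({⊤} : Set L)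

section abstract_part

variable {M : Type u} [Order.Frame M]

/-- Adding a new top to a frame gives a frame. -/
noncomputable instance frameWithTop : Order.Frame (WithTop M) :=
  Order.Frame.ofMinimalAxioms
    { inf_sSup_le_iSup_inf := by
        intro a s
        induction a using WithTop.recTopCoe with
        | top =>
          rw [top_inf_eq]
          apply sSup_le
          intro b hb
          exact le_iSup₂_of_le b hb (by rw [top_inf_eq])
        | coe m =>
          by_cases hs : (⊤ : WithTop M) ∈ s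
          · refine inf_le_left.trans ?_
            exact le_iSup₂_of_le ⊤ hs (by rw [inf_top_eq])
          · induction h : (⨆ b ∈ s, (m : WithTop M) ⊓ b) using WithTop.recTopCoe with
            | top => exact le_top
            | coe w =>
              have h1 : ∀ b : M, (b : WithTop M) ∈ s → m ⊓ b ≤ w := by
                intro b hb
                have h2 : (m : WithTop M) ⊓ (b : WithTop M) ≤ (w : WithTop M) := by
                  rw [← h]
                  exact le_iSup₂_of_le (b : WithTop M) hb le_rfl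
                rw [← WithTop.coe_inf] at h2
                exact WithTop.coe_le_coe.1 h2
              have h3 : sSup s ≤ ((sSup {b : M | (b : WithTop M) ∈ s} : M) : WithTop M) := by
                apply sSup_le
                intro b hb
                induction b using WithTop.recTopCoe with
                | top => exact absurd hb hs
                | coe b => exact WithTop.coe_le_coe.2 (le_sSup hb)
              refine (inf_le_inf_left _ h3).trans ?_
              rw [← WithTop.coe_inf, WithTop.coe_le_coe, inf_sSup_eq]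
              exact iSup₂_le fun b hb => h1 b hb }

theorem directed_sup_lt {D : Set (WithTop M)} (hD : sSup D = ⊤) :
    (⊤ : WithTop M) ∈ D := by
  by_contra h
  have h3 : sSup D ≤ ((⊤ : M) : WithTop M) := by
    apply sSup_le
    intro b hb
    induction b using WithTop.recTopCoe with
    | top => exact absurd hb h
    | coe b => exact WithTop.coe_le_coe.2 le_top
  rw [hD] at h3
  exact WithTop.not_top_le_coe _ h3

/-- Key: a frame without prime elements has no proper Scott-open filter. -/
theorem bot_mem_of_scott (hM : ∀ p : M, p ≠ ⊤ → ∃ a b : M, a ⊓ b ≤ p ∧ ¬ a ≤ p ∧ ¬ b ≤ p)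
    (F : Set M) (hF : IsFilter F) (hS : IsScottOpen F) : (⊥ : M) ∈ F := by
  by_contra hbot
  obtain ⟨p, hp⟩ : ∃ p, Maximal (fun x => x ∉ F) p := by
    apply zorn_le₀ (s := {x | x ∉ F})
    intro c hc hchain
    by_cases hcn : c.Nonempty
    · refine ⟨sSup c, ?_, fun z hz => le_sSup hz⟩
      intro hmem
      obtain ⟨d, hd, hd'⟩ := hS.2 c hcn hchain.directedOn hmem
      exact hc hd hd'
    · rw [Set.not_nonempty_iff_eq_empty] at hcn
      subst hcn
      exact ⟨⊥, hbot, fun z hz => absurd hz (Set.notMem_empty z)⟩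
  have hptop : p ≠ ⊤ := by
    rintro rfl
    obtain ⟨x, hx⟩ := hF.1
    exact hp.1 (hF.2.1 le_top hx)
  obtain ⟨a, b, hab, ha, hb⟩ := hM p hptop
  have key : ∀ a, ¬ a ≤ p → p ⊔ a ∈ F := by
    intro a ha
    by_contra hna
    exact ha (le_sup_right.trans (hp.2 hna le_sup_left))
  obtain ⟨c, hc, hca, hcb⟩ := hF.2.2 _ (key a ha) _ (key b hb)
  apply hp.1
  refine hF.2.1 ?_ hc
  calc c ≤ (p ⊔ a) ⊓ (p ⊔ b) := le_inf hca hcb
    _ = p ⊔ a ⊓ b := (sup_inf_left p a b).symm
    _ ≤ p := sup_le le_rfl hab

/-- the only Scott-open filters of `WithTop M` -/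
theorem scott_filter_cases
    (hM : ∀ p : M, p ≠ ⊤ → ∃ a b : M, a ⊓ b ≤ p ∧ ¬ a ≤ p ∧ ¬ b ≤ p)
    (F : Set (WithTop M)) (hF : IsFilter F) (hS : IsScottOpen F) : F = {⊤} ∨ F = Set.univ := by
  have htop : (⊤ : WithTop M) ∈ F := by
    obtain ⟨x, hx⟩ := hF.1
    exact hF.2.1 le_top hx
  by_cases h : ∃ m : M, (m : WithTop M) ∈ F
  · right
    obtain ⟨m, hm⟩ := h
    have hF' : IsFilter {x : M | (x : WithTop M) ∈ F} := by
      refine ⟨⟨m, hm⟩, fun a b hab ha => hF.2.1 (WithTop.coe_le_coe.2 hab) ha, ?_⟩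
      intro a ha b hb
      obtain ⟨c, hc, hca, hcb⟩ := hF.2.2 _ ha _ hb
      induction c using WithTop.recTopCoe with
      | top => exact absurd hca (WithTop.not_top_le_coe _)
      | coe c => exact ⟨c, hc, WithTop.coe_le_coe.1 hca, WithTop.coe_le_coe.1 hcb⟩
    have hS' : IsScottOpen {x : M | (x : WithTop M) ∈ F} := by
      refine ⟨fun a b hab ha => hF.2.1 (WithTop.coe_le_coe.2 hab) ha, ?_⟩
      intro D hDn hD hsup
      have hle : ((sSup D : M) : WithTop M) ≤ sSup ((fun x : M => (x : WithTop M)) '' D) := by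
        induction h : sSup ((fun x : M => (x : WithTop M)) '' D) using WithTop.recTopCoe with
        | top => exact le_top
        | coe w =>
          rw [WithTop.coe_le_coe]
          apply sSup_le
          intro b hb
          rw [← WithTop.coe_le_coe, ← h]
          exact le_sSup ⟨b, hb, rfl⟩
      obtain ⟨_, ⟨d, hd, rfl⟩, hd'⟩ := hS.2 ((fun x : M => (x : WithTop M)) '' D) (hDn.image _) (by
        rintro _ ⟨x, hx, rfl⟩ _ ⟨y, hy, rfl⟩
        obtain ⟨z, hz, hxz, hyz⟩ := hD x hx y hy
        exact ⟨z, ⟨z, hz, rfl⟩, WithTop.coe_le_coe.2 hxz, WithTop.coe_le_coe.2 hyz⟩)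
        (hF.2.1 hle hsup)
      exact ⟨d, hd, hd'⟩
    have hb := bot_mem_of_scott hM _ hF' hS'
    apply Set.eq_univ_of_forall
    intro x
    refine hF.2.1 ?_ hb
    exact bot_le (α := WithTop M)
  · left
    ext x
    constructor
    · intro hx
      induction x using WithTop.recTopCoe with
      | top => rfl
      | coe m => exact absurd ⟨m, hx⟩ h
    · rintro rfl
      exact htop

theorem temperate_withTop
    (hM : ∀ p : M, p ≠ ⊤ → ∃ a b : M, a ⊓ b ≤ p ∧ ¬ a ≤ p ∧ ¬ b ≤ p) :
    Temperate (WithTop M) := by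
  have h1 : IsScottOpen ({⊤} : Set (WithTop M)) := by
    refine ⟨?_, ?_⟩
    · intro a b hab ha
      rw [Set.mem_singleton_iff] at ha ⊢
      exact top_le_iff.1 (ha ▸ hab)
    · intro D hDn _ hsup
      exact ⟨⊤, directed_sup_lt hsup, rfl⟩
  have h2 : IsScottOpen (Set.univ : Set (WithTop M)) := by
    refine ⟨fun _ _ _ _ => trivial, ?_⟩
    rintro D ⟨d, hd⟩ _ _
    exact ⟨d, hd, trivial⟩
  refine ⟨?_, h1⟩
  intro F G hF hFS hG hGS
  have hFt : (⊤ : WithTop M) ∈ F := by
    obtain ⟨x, hx⟩ := hF.1
    exact hF.2.1 le_top hx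
  have hGt : (⊤ : WithTop M) ∈ G := by
    obtain ⟨x, hx⟩ := hG.1
    exact hG.2.1 le_top hx
  rcases scott_filter_cases hM F hF hFS with rfl | rfl
  · rcases scott_filter_cases hM G hG hGS with rfl | rfl
    · have : filterJoin ({⊤} : Set (WithTop M)) {⊤} = {⊤} := by
        ext w
        constructor
        · rintro ⟨a, ha, b, hb, rfl⟩
          rw [Set.mem_singleton_iff] at ha hb ⊢
          rw [ha, hb, top_inf_eq]
        · rintro rfl
          exact ⟨⊤, rfl, ⊤, rfl, (top_inf_eq _).symm⟩
      rw [this]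
      exact h1
    · have : filterJoin ({⊤} : Set (WithTop M)) Set.univ = Set.univ := by
        apply Set.eq_univ_of_forall
        intro w
        exact ⟨⊤, rfl, w, trivial, (top_inf_eq _).symm⟩
      rw [this]
      exact h2
  · have : filterJoin (Set.univ : Set (WithTop M)) G = Set.univ := by
      apply Set.eq_univ_of_forall
      intro w
      exact ⟨w, trivial, ⊤, hGt, (inf_top_eq _).symm⟩
    rw [this]
    exact h2

theorem not_spatial_withTop [Nontrivial M]
    (hM : ∀ p : M, p ≠ ⊤ → ∃ a b : M, a ⊓ b ≤ p ∧ ¬ a ≤ p ∧ ¬ b ≤ p)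
    (X : Type v) [TopologicalSpace X] : IsEmpty (WithTop M ≃o Opens X) := by
  constructor
  intro e
  -- the open set of the largest element of `M` is empty
  have hx : ∀ x : X, x ∉ e ((⊤ : M) : WithTop M) := by
    intro x hxW
    set U : Opens X := sSup {V : Opens X | x ∉ V} with hU
    have hxU : x ∉ U := by
      intro h
      rw [hU, Opens.mem_sSup] at h
      obtain ⟨V, hV, hxV⟩ := h
      exact hV hxV
    have hUmax : ∀ V : Opens X, x ∉ V → V ≤ U := fun V hV => le_sSup hV
    have hpU : ∀ p : WithTop M, p ≤ e.symm U ↔ x ∉ e p := by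
      intro p
      rw [e.le_symm_apply]
      constructor
      · intro h hxp
        exact hxU (h hxp)
      · intro h
        exact hUmax _ h
    induction h : e.symm U using WithTop.recTopCoe with
    | top =>
      have := (hpU ⊤).1 (h ▸ le_rfl)
      rw [map_top] at this
      exact this trivial
    | coe m =>
      have hmtop : m ≠ ⊤ := by
        rintro rfl
        exact (hpU _).1 (h ▸ le_rfl) hxW
      obtain ⟨a, b, hab, ha, hb⟩ := hM m hmtop
      have ha' : x ∈ e (a : WithTop M) := by
        by_contra hna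
        have := (hpU _).2 hna
        rw [h, WithTop.coe_le_coe] at this
        exact ha this
      have hb' : x ∈ e (b : WithTop M) := by
        by_contra hnb
        have := (hpU _).2 hnb
        rw [h, WithTop.coe_le_coe] at this
        exact hb this
      have hab' : ((a ⊓ b : M) : WithTop M) ≤ e.symm U := by
        rw [h, WithTop.coe_le_coe]
        exact hab
      apply (hpU _).1 hab'
      rw [WithTop.coe_inf, map_inf]
      exact ⟨ha', hb'⟩
  have h0 : e ((⊤ : M) : WithTop M) = ⊥ := by
    ext x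
    simp [hx x]
  have h1 : ((⊤ : M) : WithTop M) = ⊥ := by
    rw [← map_bot e] at h0
    exact e.injective h0
  have h2 : ((⊤ : M) : WithTop M) ≤ ((⊥ : M) : WithTop M) := by
    rw [h1]
    exact bot_le
  rw [WithTop.coe_le_coe] at h2
  exact top_ne_bot (le_bot_iff.1 h2)

end abstract_part

section concrete

/-- double negation nucleus -/
def dd (X : Type u) [Order.Frame X] : Nucleus X where
  toFun x := xᶜᶜ
  map_inf' x y := compl_compl_inf_distrib x y
  idempotent' x := by simp
  le_apply' x := le_compl_compl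

/-- the regular open sets of the Cantor space -/
abbrev RO : Type := Set.range (dd (Opens (ℕ → Bool)))

theorem ro_no_prime (p : RO) (hp : p ≠ ⊤) : ∃ a b : RO, a ⊓ b ≤ p ∧ ¬ a ≤ p ∧ ¬ b ≤ p := by
  classical
  set n := dd (Opens (ℕ → Bool)) with hn
  have hpreg : (p.1)ᶜᶜ = p.1 := by
    obtain ⟨U, hU⟩ := p.2
    have h1 : p.1 = Uᶜᶜ := hU.symm
    rw [h1, compl_compl_compl]
  have hq : (p.1)ᶜ ≠ ⊥ := by
    intro h
    apply hp
    apply Subtype.ext
    rw [h, compl_bot] at hpreg
    rw [← hpreg]
    have : (⊤ : RO).1 = ⊤ := by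
      rw [← map_top n.restrict]
      change n ⊤ = ⊤
      exact map_top n
    rw [this]
  have hne : (((p.1)ᶜ : Opens (ℕ → Bool)) : Set (ℕ → Bool)).Nonempty := by
    rw [Set.nonempty_iff_ne_empty]
    intro h
    apply hq
    ext x
    rw [h]
    simp
  obtain ⟨x, hx⟩ := hne
  obtain ⟨v, ⟨y, k, rfl⟩, hxv, hvb⟩ :=
    (PiNat.isTopologicalBasis_cylinders (E := fun _ : ℕ => Bool)).exists_subset_of_mem_open hx
      ((p.1)ᶜ : Opens (ℕ → Bool)).isOpen
  have hcyl : ∀ z : ℕ → Bool, (∀ i < k, z i = x i) →
      (⟨PiNat.cylinder z (k + 1), PiNat.isOpen_cylinder _ z (k + 1)⟩ : Opens (ℕ → Bool)) ≤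
        (p.1)ᶜ := by
    intro z hz w hw
    apply hvb
    rw [PiNat.mem_cylinder_iff] at hxv ⊢
    intro i hi
    have h1 : w i = z i := hw i (Nat.lt_succ_of_lt hi)
    rw [h1, hz i hi, hxv i hi]
  have hnle : ∀ z : ℕ → Bool, (∀ i < k, z i = x i) →
      ¬ n.restrict ⟨PiNat.cylinder z (k + 1), PiNat.isOpen_cylinder _ z (k + 1)⟩ ≤ p := by
    intro z hz hle
    have h1 : (⟨PiNat.cylinder z (k + 1), PiNat.isOpen_cylinder _ z (k + 1)⟩ :
        Opens (ℕ → Bool)) ≤ p.1 := by
      refine le_trans ?_ (show (n.restrict ⟨PiNat.cylinder z (k + 1),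
        PiNat.isOpen_cylinder _ z (k + 1)⟩).1 ≤ p.1 from hle)
      exact n.le_apply
    have h2 := le_inf h1 (hcyl z hz)
    rw [inf_compl_self] at h2
    have h3 : z ∈ (⊥ : Opens (ℕ → Bool)) := h2 (PiNat.self_mem_cylinder z (k + 1))
    simp at h3
  refine ⟨_, _, ?_, hnle x (fun _ _ => rfl), hnle (Function.update x k (!(x k))) ?_⟩
  · rw [← map_inf]
    have : (⟨PiNat.cylinder x (k + 1), PiNat.isOpen_cylinder _ x (k + 1)⟩ : Opens (ℕ → Bool)) ⊓
        ⟨PiNat.cylinder (Function.update x k (!(x k))) (k + 1),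
          PiNat.isOpen_cylinder _ _ (k + 1)⟩ = ⊥ := by
      rw [eq_bot_iff]
      rintro w ⟨h1, h2⟩
      have h3 : w k = x k := h1 k (Nat.lt_succ_self k)
      have h4 : w k = Function.update x k (!(x k)) k := h2 k (Nat.lt_succ_self k)
      rw [Function.update_self, h3] at h4
      cases h5 : x k <;> rw [h5] at h4 <;> simp at h4
    rw [this, map_bot]
    exact bot_le
  · intro i hi
    rw [Function.update_of_ne (Nat.ne_of_lt hi)]

theorem ro_nontrivial : Nontrivial RO := by
  refine ⟨⟨⊥, ⊤, ?_⟩⟩
  intro h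
  set n := dd (Opens (ℕ → Bool)) with hn
  have h1 : (⊤ : RO).1 = ⊤ := by
    rw [← map_top n.restrict]
    change n ⊤ = ⊤
    exact map_top n
  have h2 : (⊥ : RO).1 = ⊥ := by
    rw [← map_bot n.restrict]
    change (⊥ : Opens (ℕ → Bool))ᶜᶜ = ⊥
    rw [compl_bot, compl_top]
  rw [← h, h2] at h1
  exact bot_ne_top h1

end concrete

/-- There is a temperate frame which is not isomorphic to the frame of open sets of any
topological space. -/
theorem result : ∃ (L : Type) (_ : Order.Frame L), Temperate L ∧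
    ∀ (X : Type v) [TopologicalSpace X], IsEmpty (L ≃o Opens X) := by
  have := ro_nontrivial
  exact ⟨WithTop RO, frameWithTop, temperate_withTop ro_no_prime,
    fun X _ => not_spatial_withTop ro_no_prime X⟩

end Pool.Agent.Results.MP_f10132_gt.NonSpatial
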